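import Pool.Agent.H67.HM.Stm

/-!
Crew HM (helper29): common facts for the parts AEC, TR, JJ, SMO.
-/

open MeasureTheory Filter Topology

namespace HM

/-- construction of operators into `L^p[0,1]` -/
theorem mkOp (p : ENNReal) [Fact (1 ≤ p)] {E : Type} [NormedAddCommGroup E] [NormedSpace ℂ E]
    (F : E → ℝ → ℂ) (hadd : ∀ a b, F (a + b) =ᵐ[mu] fun x => F a x + F b x)
    (hsmul : ∀ (c : ℂ) (a : E), F (c • a) =ᵐ[mu] fun x => c * F a x)
    (hm : ∀ a, AEStronglyMeasurable (F a) mu)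
    (hn : ∀ a, eLpNorm (F a) p mu ≤ ENNReal.ofReal ‖a‖) :
    ∃ T : E →L[ℂ] LpI p, ∀ a, (T a : ℝ → ℂ) =ᵐ[mu] F a ∧ ‖T a‖ ≤ ‖a‖ := by
  have hmem : ∀ a, MemLp (F a) p mu := fun a =>
    ⟨hm a, lt_of_le_of_lt (hn a) ENNReal.ofReal_lt_top⟩
  have hnorm : ∀ a, ‖(hmem a).toLp (F a)‖ ≤ ‖a‖ := by
    intro a
    rw [Lp.norm_toLp]
    exact ENNReal.toReal_le_of_le_ofReal (norm_nonneg _) (hn a)
  let T0 : E →ₗ[ℂ] LpI p :=
    { toFun := fun a => (hmem a).toLp (F a)
      map_add' := by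
        intro a b
        rw [← MemLp.toLp_add, MemLp.toLp_eq_toLp_iff]
        exact hadd a b
      map_smul' := by
        intro c a
        rw [RingHom.id_apply, ← MemLp.toLp_const_smul, MemLp.toLp_eq_toLp_iff]
        exact hsmul c a }
  refine ⟨T0.mkContinuous 1 (fun a => by rw [one_mul]; exact hnorm a), fun a => ⟨?_, hnorm a⟩⟩
  exact (hmem a).coeFn_toLp

theorem mu_map_le (c : ℝ) (hc : 0 < c) (hc1 : c ≤ 1) :
    Measure.map (fun x => c * x) mu ≤ ENNReal.ofReal c⁻¹ • mu := by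
  apply Measure.le_iff.2
  intro s hs
  have hme : Measurable (fun x : ℝ => c * x) := measurable_const_mul c
  rw [Measure.map_apply hme hs, Measure.smul_apply, smul_eq_mul, mu,
    Measure.restrict_apply (hme hs), Measure.restrict_apply hs]
  have h1 : (fun x : ℝ => c * x) ⁻¹' s ∩ Set.Icc 0 1 ⊆
      (fun x : ℝ => c * x) ⁻¹' (s ∩ Set.Icc 0 1) := by
    rintro x ⟨hx1, hx2⟩
    refine ⟨hx1, mul_nonneg hc.le hx2.1, ?_⟩
    have := hx2.2
    have h0 := hx2.1
    change c * x ≤ 1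
    nlinarith
  refine (measure_mono h1).trans ?_
  rw [Real.volume_preimage_mul_left hc.ne', abs_of_pos (inv_pos.2 hc)]

theorem mu_qmp (c : ℝ) (hc : 0 < c) (hc1 : c ≤ 1) :
    Measure.QuasiMeasurePreserving (fun x : ℝ => c * x) mu mu :=
  ⟨measurable_const_mul c, (Measure.absolutelyContinuous_of_le (mu_map_le c hc hc1)).trans
    Measure.smul_absolutelyContinuous⟩

/-- AEC -/
theorem AEC_proved : S_AEC := by
  intro p r f g hr hfg
  have hc : 0 < Real.exp (-r) := Real.exp_pos _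
  have hc1 : Real.exp (-r) ≤ 1 := Real.exp_le_one_iff.2 (by linarith)
  have h1 := (mu_qmp _ hc hc1).ae hfg
  filter_upwards [h1] with x hx
  unfold tfun
  rw [hx]

theorem tfun_norm (p : ENNReal) (hp1 : 1 ≤ p) (hp : p < ⊤) (r : ℝ) (hr : 0 ≤ r) (f : ℝ → ℂ)
    (hf : AEStronglyMeasurable f mu) : eLpNorm (tfun p r f) p mu ≤ eLpNorm f p mu := by
  have hc : 0 < Real.exp (-r) := Real.exp_pos _
  have hc1 : Real.exp (-r) ≤ 1 := Real.exp_le_one_iff.2 (by linarith)
  have hpr : 0 < p.toReal := ENNReal.toReal_pos (by positivity) hp.ne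
  have h1 : tfun p r f = (Real.exp (-(r / p.toReal)) : ℂ) • (f ∘ fun x => Real.exp (-r) * x) := by
    funext x
    simp [tfun, Function.comp]
  rw [h1, eLpNorm_const_smul]
  have hfm : AEStronglyMeasurable f (Measure.map (fun x => Real.exp (-r) * x) mu) :=
    hf.mono_ac (mu_qmp _ hc hc1).absolutelyContinuous
  rw [← eLpNorm_map_measure hfm (measurable_const_mul _).aemeasurable]
  have h2 := eLpNorm_mono_measure f (mu_map_le _ hc hc1) (p := p)
  rw [eLpNorm_smul_measure_of_ne_top hp.ne] at h2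
  refine (mul_le_mul_right h2 _).trans ?_
  rw [smul_eq_mul, ← mul_assoc]
  have h3 : ‖(Real.exp (-(r / p.toReal)) : ℂ)‖ₑ *
      (ENNReal.ofReal (Real.exp (-r))⁻¹ ^ (1 / p).toReal) = 1 := by
    rw [← ofReal_norm, Complex.norm_real, Real.norm_of_nonneg (Real.exp_pos _).le,
      ENNReal.ofReal_rpow_of_pos (inv_pos.2 hc), ← ENNReal.ofReal_mul (Real.exp_pos _).le,
      ← Real.exp_neg, neg_neg, ← Real.exp_mul, ← Real.exp_add, one_div, ENNReal.toReal_inv]
    have : -(r / p.toReal) + r * p.toReal⁻¹ = 0 := by ring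
    rw [this, Real.exp_zero, ENNReal.ofReal_one]
  rw [h3, one_mul]

theorem tfun_meas (p : ENNReal) (r : ℝ) (hr : 0 ≤ r) (f : ℝ → ℂ)
    (hf : AEStronglyMeasurable f mu) : AEStronglyMeasurable (tfun p r f) mu := by
  have hc : 0 < Real.exp (-r) := Real.exp_pos _
  have hc1 : Real.exp (-r) ≤ 1 := Real.exp_le_one_iff.2 (by linarith)
  have := hf.comp_quasiMeasurePreserving (mu_qmp _ hc hc1)
  exact this.const_mul _

/-- TR -/
theorem TR_proved : S_TR := by
  intro p hp1 hp
  have key : ∀ r : ℝ, ∃ T : LpI p →L[ℂ] LpI p, 0 ≤ r → ∀ f : LpI p,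
      (T f : ℝ → ℂ) =ᵐ[mu] tfun p r f ∧ ‖T f‖ ≤ ‖f‖ := by
    intro r
    by_cases hr : 0 ≤ r
    · obtain ⟨T, hT⟩ := mkOp p (fun f : LpI p => tfun p r (f : ℝ → ℂ))
        (by
          intro a b
          refine (AEC_proved p r _ _ hr (Lp.coeFn_add a b)).trans ?_
          refine Filter.Eventually.of_forall fun x => ?_
          simp only [tfun, Pi.add_apply]
          ring)
        (by
          intro c a
          refine (AEC_proved p r _ _ hr (Lp.coeFn_smul c a)).trans ?_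
          refine Filter.Eventually.of_forall fun x => ?_
          simp only [tfun, Pi.smul_apply, smul_eq_mul]
          ring)
        (fun a => tfun_meas p r hr _ (Lp.aestronglyMeasurable a))
        (by
          intro a
          refine (tfun_norm p hp1.out hp r hr _ (Lp.aestronglyMeasurable a)).trans ?_
          rw [Lp.norm_def, ENNReal.ofReal_toReal (Lp.eLpNorm_ne_top a)])
      exact ⟨T, fun _ => hT⟩
    · exact ⟨0, fun h => absurd h hr⟩
  choose T hT using key
  exact ⟨T, fun r hr f => hT r hr f⟩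

end HM
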