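import Pool.Agent.H29.HM.Base

/-!
Crew HM (helper29): part JJ, and the block decomposition.
-/

open MeasureTheory Filter Topology

namespace HM

/-- the blocks -/
def blk (δ : ℝ) (k : ℕ) : Set ℝ := Set.Ioc (Real.exp (-((k + 1) * δ))) (Real.exp (-(k * δ)))

theorem blk_meas (δ : ℝ) (k : ℕ) : MeasurableSet (blk δ k) := measurableSet_Ioc

theorem blk_pos {δ : ℝ} {k : ℕ} {x : ℝ} (hx : x ∈ blk δ k) : 0 < x :=
  (Real.exp_pos _).trans hx.1

theorem blk_log {δ : ℝ} {k : ℕ} {x : ℝ} (hx : x ∈ blk δ k) :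
    k * δ ≤ -Real.log x ∧ -Real.log x < (k + 1) * δ := by
  have hx0 := blk_pos hx
  constructor
  · have := (Real.log_le_iff_le_exp hx0).2 hx.2
    linarith
  · have := (Real.lt_log_iff_exp_lt hx0).2 hx.1
    linarith

theorem blk_floor {δ : ℝ} (hδ : 0 < δ) {k : ℕ} {x : ℝ} (hx : x ∈ blk δ k) :
    ⌊-Real.log x / δ⌋₊ = k := by
  obtain ⟨h1, h2⟩ := blk_log hx
  rw [Nat.floor_eq_iff (div_nonneg ((mul_nonneg (Nat.cast_nonneg k) hδ.le).trans h1) hδ.le)]
  constructor
  · rw [le_div_iff₀ hδ]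
    exact h1
  · rw [div_lt_iff₀ hδ]
    exact h2

theorem blk_disj {δ : ℝ} (hδ : 0 < δ) : Pairwise (Function.onFun Disjoint (blk δ)) := by
  intro i j hij
  rw [Function.onFun, Set.disjoint_left]
  intro x hi hj
  exact hij ((blk_floor hδ hi).symm.trans (blk_floor hδ hj))

theorem blk_union {δ : ℝ} (hδ : 0 < δ) : (⋃ k, blk δ k) = Set.Ioc (0 : ℝ) 1 := by
  ext x
  rw [Set.mem_iUnion]
  constructor
  · rintro ⟨k, hk⟩
    refine ⟨blk_pos hk, hk.2.trans (Real.exp_le_one_iff.2 ?_)⟩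
    have : 0 ≤ (k : ℝ) * δ := by positivity
    linarith
  · rintro ⟨hx0, hx1⟩
    have hl : 0 ≤ -Real.log x / δ := div_nonneg (by linarith [Real.log_nonpos hx0.le hx1]) hδ.le
    refine ⟨⌊-Real.log x / δ⌋₊, ?_, ?_⟩
    · rw [← Real.lt_log_iff_exp_lt hx0]
      have := Nat.lt_floor_add_one (-Real.log x / δ)
      rw [div_lt_iff₀ hδ] at this
      linarith
    · rw [← Real.log_le_iff_le_exp hx0]
      have := Nat.floor_le hl
      rw [le_div_iff₀ hδ] at this
      linarith

theorem mu_eq : mu = volume.restrict (Set.Ioc (0 : ℝ) 1) := by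
  rw [mu]
  exact (Measure.restrict_congr_set Ioc_ae_eq_Icc).symm

theorem blk_lint {δ : ℝ} (hδ : 0 < δ) (G : ℝ → ENNReal) :
    ∫⁻ x, G x ∂mu = ∑' k, ∫⁻ x in blk δ k, G x := by
  rw [mu_eq, ← blk_union hδ, lintegral_iUnion (fun k => blk_meas δ k) (blk_disj hδ)]

/-- an explicit integral -/
theorem lint_inv {δ a b : ℝ} (hδ : 0 < δ) (ha : 0 < a) (hab : a ≤ b) :
    ∫⁻ x in Set.Ioc a b, ENNReal.ofReal ((δ * x)⁻¹) = ENNReal.ofReal (δ⁻¹ * Real.log (b / a)) := by
  have hint : IntegrableOn (fun x : ℝ => (δ * x)⁻¹) (Set.Ioc a b) := by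
    have : ContinuousOn (fun x : ℝ => (δ * x)⁻¹) (Set.Icc a b) := by
      apply ContinuousOn.inv₀ (by fun_prop)
      intro x hx
      have := lt_of_lt_of_le ha hx.1
      positivity
    exact this.integrableOn_Icc.mono_set Set.Ioc_subset_Icc_self
  rw [← ofReal_integral_eq_lintegral_ofReal hint]
  · rw [← intervalIntegral.integral_of_le hab]
    have : (fun x : ℝ => (δ * x)⁻¹) = fun x : ℝ => δ⁻¹ * x⁻¹ := by
      funext x
      rw [mul_inv]
    rw [this, intervalIntegral.integral_const_mul, integral_inv_of_pos ha (ha.trans_le hab)]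
  · refine (ae_restrict_iff' measurableSet_Ioc).2 (Filter.Eventually.of_forall fun x hx => ?_)
    have := ha.trans hx.1
    change 0 ≤ (δ * x)⁻¹
    positivity

theorem blk_one {δ : ℝ} (hδ : 0 < δ) (k : ℕ) :
    ∫⁻ x in blk δ k, ENNReal.ofReal ((δ * x)⁻¹) = 1 := by
  rw [blk, lint_inv hδ (Real.exp_pos _)]
  · rw [← Real.exp_sub, Real.log_exp]
    have : δ⁻¹ * (-(↑k * δ) - -((↑k + 1) * δ)) = 1 := by
      field_simp
      ring
    rw [this, ENNReal.ofReal_one]
  · apply Real.exp_le_exp.2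
    nlinarith

theorem jfun_meas (p : ENNReal) (δ : ℝ) (b : ℕ → ℂ) : Measurable (jfun p δ b) := by
  unfold jfun
  apply Measurable.mul
  · fun_prop
  · exact (measurable_from_nat (f := b)).comp
      (Nat.measurable_floor.comp ((Real.measurable_log.neg).div_const δ))

theorem jfun_norm (p : ENNReal) (hp1 : 1 ≤ p) (hp : p < ⊤) {δ : ℝ} (hδ : 0 < δ) (b : ℕ → ℂ) :
    eLpNorm (jfun p δ b) p mu = (∑' k, ‖b k‖ₑ ^ p.toReal) ^ (1 / p.toReal) := by
  have hpr : 0 < p.toReal := ENNReal.toReal_pos (by positivity) hp.ne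
  rw [eLpNorm_eq_lintegral_rpow_enorm_toReal (by positivity) hp.ne, blk_lint hδ]
  congr 1
  refine tsum_congr fun k => ?_
  have h1 : ∀ x ∈ blk δ k, ‖jfun p δ b x‖ₑ ^ p.toReal =
      ENNReal.ofReal ((δ * x)⁻¹) * ‖b k‖ₑ ^ p.toReal := by
    intro x hx
    have hx0 := blk_pos hx
    rw [jfun, blk_floor hδ hx, enorm_mul, ENNReal.mul_rpow_of_nonneg _ _ hpr.le]
    congr 1
    rw [← ofReal_norm, Complex.norm_real, Real.norm_of_nonneg (by positivity),
      ENNReal.ofReal_rpow_of_nonneg (by positivity) hpr.le, ← Real.rpow_mul (by positivity)]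
    have : -(1 / p.toReal) * p.toReal = -1 := by
      field_simp
    rw [this, Real.rpow_neg_one]
  rw [setLIntegral_congr_fun (blk_meas δ k) h1, lintegral_mul_const'' _ (by fun_prop),
    blk_one hδ, one_mul]

/-- JJ -/
theorem JJ_proved : S_JJ := by
  intro p hp1 hp
  have hpr : 0 < p.toReal := ENNReal.toReal_pos (by have := hp1.out; positivity) hp.ne
  have key : ∀ δ : ℝ, ∃ J : (lp (fun _ : ℕ => ℂ) p) →L[ℂ] LpI p, 0 < δ →
      ∀ b : lp (fun _ : ℕ => ℂ) p, (J b : ℝ → ℂ) =ᵐ[mu] jfun p δ b ∧ ‖J b‖ ≤ ‖b‖ := by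
    intro δ
    by_cases hδ : 0 < δ
    · obtain ⟨T, hT⟩ := mkOp p (fun b : lp (fun _ : ℕ => ℂ) p => jfun p δ b)
        (by
          intro a b
          refine Filter.Eventually.of_forall fun x => ?_
          simp only [jfun, lp.coeFn_add, Pi.add_apply]
          ring)
        (by
          intro c a
          refine Filter.Eventually.of_forall fun x => ?_
          simp only [jfun, lp.coeFn_smul, Pi.smul_apply, smul_eq_mul]
          ring)
        (fun a => (jfun_meas p δ a).aestronglyMeasurable)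
        (by
          intro a
          rw [jfun_norm p hp1.out hp hδ, lp.norm_eq_tsum_rpow hpr]
          have hs := (lp.memℓp a).summable hpr
          rw [← ENNReal.ofReal_rpow_of_nonneg (tsum_nonneg fun k => by positivity) (by positivity),
            ENNReal.ofReal_tsum_of_nonneg (fun k => by positivity) hs]
          refine le_of_eq ?_
          congr 1
          refine tsum_congr fun k => ?_
          rw [← ofReal_norm, ENNReal.ofReal_rpow_of_nonneg (norm_nonneg _) hpr.le])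
      exact ⟨T, fun _ => hT⟩
    · exact ⟨0, fun h => absurd h hδ⟩
  choose J hJ using key
  exact ⟨J, fun δ hδ b => hJ δ hδ b⟩

end HM
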