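import Pool.Agent.H29.HM.JJ

/-!
Crew HM (helper29): part SMO.
-/

open MeasureTheory Filter Topology

namespace HM

/-- primitive -/
noncomputable def prim (f : ℝ → ℂ) (x : ℝ) : ℂ := ∫ t in (0 : ℝ)..x, f t

theorem lp_int (p : ENNReal) (hp1 : 1 ≤ p) (f : ℝ → ℂ) (hf : MemLp f p mu) :
    IntegrableOn f (Set.Icc 0 1) := by
  have : IsFiniteMeasure mu := by
    rw [mu]
    infer_instance
  exact hf.integrable hp1

theorem blk_sub {δ : ℝ} (hδ : 0 < δ) (k : ℕ) : blk δ k ⊆ Set.Ioc 0 1 := by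
  rw [← blk_union hδ]
  exact Set.subset_iUnion _ k

theorem prim_sub (p : ENNReal) (hp1 : 1 ≤ p) {f : ℝ → ℂ} (hf : MemLp f p mu)
    {δ : ℝ} {k : ℕ} {x y : ℝ} (hδ : 0 < δ) (hx : x ∈ blk δ k) (hy : y ∈ blk δ k) :
    ‖prim f x - prim f y‖ ≤ |x - y| ^ (1 - 1 / p.toReal) *
      (eLpNorm f p (volume.restrict (blk δ k))).toReal := by
  have hi := lp_int p hp1 f hf
  have hx1 := blk_sub hδ k hx
  have hy1 := blk_sub hδ k hy
  have hI : ∀ z ∈ Set.Ioc (0 : ℝ) 1, IntervalIntegrable f volume 0 z := by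
    intro z hz
    rw [intervalIntegrable_iff_integrableOn_Ioc_of_le hz.1.le]
    exact hi.mono_set fun t ht => ⟨ht.1.le, ht.2.trans hz.2⟩
  rw [prim, prim, intervalIntegral.integral_interval_sub_left (hI x hx1) (hI y hy1)]
  have hsub : Set.uIoc y x ⊆ blk δ k := by
    intro t ht
    rw [Set.uIoc, Set.mem_Ioc] at ht
    exact ⟨(lt_min hy.1 hx.1).trans_le (ht.1.le.trans' le_rfl) |>.trans_le le_rfl,
      ht.2.trans (max_le hy.2 hx.2)⟩
  have hle : volume.restrict (Set.uIoc y x) ≤ volume.restrict (blk δ k) :=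
    Measure.restrict_mono hsub le_rfl
  have hle2 : volume.restrict (blk δ k) ≤ mu := by
    rw [mu_eq]
    exact Measure.restrict_mono (blk_sub hδ k) le_rfl
  have hmeas : AEStronglyMeasurable f (volume.restrict (Set.uIoc y x)) :=
    hf.1.mono_measure (hle.trans hle2)
  have hfin : eLpNorm f p (volume.restrict (blk δ k)) ≠ ⊤ :=
    ((eLpNorm_mono_measure f hle2).trans_lt hf.2).ne
  refine intervalIntegral.norm_integral_le_integral_norm_uIoc.trans ?_
  rw [integral_norm_eq_lintegral_enorm hmeas, ← eLpNorm_one_eq_lintegral_enorm]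
  have h1 := eLpNorm_le_eLpNorm_mul_rpow_measure_univ hp1 hmeas
  rw [Measure.restrict_apply_univ, Real.volume_uIoc, ENNReal.toReal_one, div_one] at h1
  have hs : 0 ≤ 1 - 1 / p.toReal := by
    by_cases hp : p = ⊤
    · simp [hp]
    · have : 1 ≤ p.toReal := by
        rw [← ENNReal.toReal_one]
        exact ENNReal.toReal_mono hp hp1
      rw [sub_nonneg, div_le_one (by linarith)]
      exact this
  rw [ENNReal.ofReal_rpow_of_nonneg (abs_nonneg _) hs] at h1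
  have h2 : eLpNorm f 1 (volume.restrict (Set.uIoc y x)) ≤
      ENNReal.ofReal (|x - y| ^ (1 - 1 / p.toReal)) * eLpNorm f p (volume.restrict (blk δ k)) := by
    refine h1.trans ?_
    rw [mul_comm]
    exact mul_le_mul_right (eLpNorm_mono_measure f hle) _
  have h3 := ENNReal.toReal_mono (ENNReal.mul_ne_top ENNReal.ofReal_ne_top hfin) h2
  rwa [ENNReal.toReal_mul, ENNReal.toReal_ofReal (by positivity)] at h3

/-- oscillation of `x^(-s) F x` in a block -/
theorem phi_diff {s δ N : ℝ} (hs0 : 0 ≤ s) (hs1 : s ≤ 1) (_hδ : 0 < δ) (hδ1 : δ ≤ 1) (hN : 0 ≤ N)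
    {k : ℕ} {x y : ℝ} (hx : x ∈ blk δ k) (hy : y ∈ blk δ k) (Fx Fy : ℂ)
    (hF : ‖Fx - Fy‖ ≤ |x - y| ^ s * N) :
    ‖((x ^ (-s) : ℝ) : ℂ) * Fx - ((y ^ (-s) : ℝ) : ℂ) * Fy‖ ≤
      (2 * δ) ^ s * N + 2 * δ * ‖((x ^ (-s) : ℝ) : ℂ) * Fx‖ := by
  have hx0 := blk_pos hx
  have hy0 := blk_pos hy
  obtain ⟨hx1, hx2⟩ := blk_log hx
  obtain ⟨hy1, hy2⟩ := blk_log hy
  set l := Real.log x - Real.log y with hl
  have hl1 : |l| ≤ δ := by
    rw [abs_le]
    constructor <;> linarith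
  have hxy : x = y * Real.exp l := by
    rw [hl, Real.exp_sub, Real.exp_log hx0, Real.exp_log hy0]
    field_simp
  have e1 : |Real.exp l - 1| ≤ 2 * δ :=
    (Real.abs_exp_sub_one_le (hl1.trans hδ1)).trans (by linarith)
  have e2 : |1 - Real.exp (s * l)| ≤ 2 * δ := by
    have h1 : |s * l| ≤ δ := by
      rw [abs_mul, abs_of_nonneg hs0]
      calc s * |l| ≤ 1 * |l| := by gcongr
        _ ≤ δ := by linarith
    rw [abs_sub_comm]
    exact (Real.abs_exp_sub_one_le (h1.trans hδ1)).trans (by linarith)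
  have hid : ((x ^ (-s) : ℝ) : ℂ) * Fx - ((y ^ (-s) : ℝ) : ℂ) * Fy =
      ((y ^ (-s) : ℝ) : ℂ) * (Fx - Fy) + ((1 - Real.exp (s * l) : ℝ) : ℂ) *
        (((x ^ (-s) : ℝ) : ℂ) * Fx) := by
    have : (y ^ (-s) : ℝ) = Real.exp (s * l) * x ^ (-s) := by
      rw [hxy, Real.mul_rpow hy0.le (Real.exp_pos _).le, ← Real.exp_mul, mul_comm l (-s), neg_mul,
        Real.exp_neg]
      have := (Real.exp_pos (s * l)).ne'
      field_simp
    rw [this]
    push_cast
    ring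
  rw [hid]
  refine (norm_add_le _ _).trans (add_le_add ?_ ?_)
  · rw [norm_mul, Complex.norm_real, Real.norm_of_nonneg (by positivity)]
    have h1 : |x - y| = y * |Real.exp l - 1| := by
      rw [hxy, ← abs_of_pos hy0, ← abs_mul, abs_of_pos hy0]
      congr 1
      ring
    calc y ^ (-s) * ‖Fx - Fy‖ ≤ y ^ (-s) * (|x - y| ^ s * N) := by gcongr
      _ = |Real.exp l - 1| ^ s * N := by
        rw [h1, Real.mul_rpow hy0.le (abs_nonneg _), Real.rpow_neg hy0.le]
        have : y ^ s ≠ 0 := (Real.rpow_pos_of_pos hy0 s).ne'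
        field_simp
      _ ≤ (2 * δ) ^ s * N := by
        gcongr
  · rw [norm_mul, Complex.norm_real]
    gcongr
    exact e2

/-- weighted averages -/
theorem avg_bound {δ : ℝ} (hδ : 0 < δ) (c : ℂ) (ψ : ℝ → ℂ) (B : ℝ)
    (hi : IntegrableOn (fun u : ℝ => (((δ * u)⁻¹ : ℝ) : ℂ) * ψ u) (Set.Ioc (Real.exp (-δ)) 1))
    (hB : ∀ u ∈ Set.Ioc (Real.exp (-δ)) 1, ‖c - ψ u‖ ≤ B) :
    ‖c - ∫ u in Set.Ioc (Real.exp (-δ)) 1, (((δ * u)⁻¹ : ℝ) : ℂ) * ψ u‖ ≤ B := by
  have hle : Real.exp (-δ) ≤ 1 := Real.exp_le_one_iff.2 (by linarith)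
  have hint : IntegrableOn (fun x : ℝ => (δ * x)⁻¹) (Set.Ioc (Real.exp (-δ)) 1) := by
    have : ContinuousOn (fun x : ℝ => (δ * x)⁻¹) (Set.Icc (Real.exp (-δ)) 1) := by
      apply ContinuousOn.inv₀ (by fun_prop)
      intro x hx
      have := lt_of_lt_of_le (Real.exp_pos _) hx.1
      positivity
    exact this.integrableOn_Icc.mono_set Set.Ioc_subset_Icc_self
  have hone : ∫ u in Set.Ioc (Real.exp (-δ)) 1, (δ * u)⁻¹ = 1 := by
    rw [← intervalIntegral.integral_of_le hle]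
    have : (fun x : ℝ => (δ * x)⁻¹) = fun x : ℝ => δ⁻¹ * x⁻¹ := by
      funext x
      rw [mul_inv]
    rw [this, intervalIntegral.integral_const_mul, integral_inv_of_pos (Real.exp_pos _) one_pos,
      one_div, ← Real.exp_neg, neg_neg, Real.log_exp]
    exact inv_mul_cancel₀ hδ.ne'
  have hc : c = ∫ u in Set.Ioc (Real.exp (-δ)) 1, (((δ * u)⁻¹ : ℝ) : ℂ) * c := by
    rw [integral_mul_const, integral_complex_ofReal, hone]
    simp
  have hic : IntegrableOn (fun u : ℝ => (((δ * u)⁻¹ : ℝ) : ℂ) * c)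
      (Set.Ioc (Real.exp (-δ)) 1) := (hint.ofReal).mul_const c
  conv_lhs => rw [hc]
  rw [← integral_sub hic hi]
  refine (norm_integral_le_integral_norm _).trans ?_
  have h1 : ∫ u in Set.Ioc (Real.exp (-δ)) 1,
      ‖(((δ * u)⁻¹ : ℝ) : ℂ) * c - (((δ * u)⁻¹ : ℝ) : ℂ) * ψ u‖ ≤
      ∫ u in Set.Ioc (Real.exp (-δ)) 1, (δ * u)⁻¹ * B := by
    refine setIntegral_mono_on (hic.sub hi).norm (hint.mul_const B) measurableSet_Ioc ?_
    intro u hu
    have hu0 := (Real.exp_pos (-δ)).trans hu.1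
    rw [← mul_sub, norm_mul, Complex.norm_real, Real.norm_of_nonneg (by positivity)]
    gcongr
    exact hB u hu
  refine h1.trans ?_
  rw [integral_mul_const, hone, one_mul]

theorem w_formula (p : ENNReal) (f : ℝ → ℂ) {δ : ℝ} (hδ : 0 < δ) (k : ℕ) :
    wfun p δ (tfun p (k * δ) (hardyFun f)) = ((δ ^ (1 / p.toReal) : ℝ) : ℂ) *
      ∫ u in Set.Ioc (Real.exp (-δ)) 1, (((δ * u)⁻¹ : ℝ) : ℂ) *
        ((((Real.exp (-(k * δ)) * u) ^ (-(1 - 1 / p.toReal)) : ℝ) : ℂ) *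
          prim f (Real.exp (-(k * δ)) * u)) := by
  rw [wfun, ← integral_const_mul]
  refine setIntegral_congr_fun measurableSet_Ioc fun u hu => ?_
  have hu0 : 0 < u := (Real.exp_pos (-δ)).trans hu.1
  have hr0 : 0 < Real.exp (-(k * δ)) := Real.exp_pos _
  have hru : 0 < Real.exp (-(k * δ)) * u := mul_pos hr0 hu0
  have hδu : 0 < δ * u := mul_pos hδ hu0
  have hid : (δ * u) ^ (-(1 - 1 / p.toReal)) * Real.exp (-(k * δ / p.toReal)) *
      (Real.exp (-(k * δ)) * u)⁻¹ = δ ^ (1 / p.toReal) * (δ * u)⁻¹ *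
      (Real.exp (-(k * δ)) * u) ^ (-(1 - 1 / p.toReal)) := by
    rw [← Real.rpow_neg_one (Real.exp (-(k * δ)) * u), ← Real.rpow_neg_one (δ * u),
      Real.rpow_def_of_pos hru, Real.rpow_def_of_pos hru, Real.rpow_def_of_pos hδu,
      Real.rpow_def_of_pos hδu, Real.rpow_def_of_pos hδ, Real.log_mul hr0.ne' hu0.ne',
      Real.log_mul hδ.ne' hu0.ne', Real.log_exp, ← Real.exp_add, ← Real.exp_add, ← Real.exp_add,
      ← Real.exp_add]
    congr 1
    ring
  have hid' := congrArg (fun z : ℝ => (z : ℂ)) hid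
  simp only [Complex.ofReal_mul, Complex.ofReal_inv] at hid'
  simp only [tfun, hardyFun]
  rw [← mul_assoc, ← mul_assoc, ← mul_assoc, ← mul_assoc]
  simp only [Complex.ofReal_mul, Complex.ofReal_inv]
  rw [hid']
  rfl

theorem prim_cont (p : ENNReal) (hp1 : 1 ≤ p) {f : ℝ → ℂ} (hf : MemLp f p mu) :
    ContinuousOn (prim f) (Set.Icc 0 1) := by
  have h := lp_int p hp1 f hf
  rw [← Set.uIcc_of_le (zero_le_one' ℝ)] at h ⊢
  exact intervalIntegral.continuousOn_primitive_interval h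

theorem smo_int (p : ENNReal) (hp1 : 1 ≤ p) {f : ℝ → ℂ} (hf : MemLp f p mu) {δ r s : ℝ}
    (hδ : 0 < δ) (hr0 : 0 < r) (hr1 : r ≤ 1) :
    IntegrableOn (fun u : ℝ => (((δ * u)⁻¹ : ℝ) : ℂ) *
        ((((r * u) ^ (-s) : ℝ) : ℂ) * prim f (r * u))) (Set.Ioc (Real.exp (-δ)) 1) := by
  have hc : ContinuousOn (fun u : ℝ => (((δ * u)⁻¹ : ℝ) : ℂ) *
        ((((r * u) ^ (-s) : ℝ) : ℂ) * prim f (r * u))) (Set.Icc (Real.exp (-δ)) 1) := by
    have hpos : ∀ u ∈ Set.Icc (Real.exp (-δ)) 1, 0 < u := fun u hu =>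
      (Real.exp_pos _).trans_le hu.1
    apply ContinuousOn.mul
    · apply Complex.continuous_ofReal.comp_continuousOn
      apply ContinuousOn.inv₀ (by fun_prop)
      intro x hx
      have := hpos x hx
      positivity
    apply ContinuousOn.mul
    · apply Complex.continuous_ofReal.comp_continuousOn
      apply ContinuousOn.rpow_const (by fun_prop)
      intro x hx
      have := hpos x hx
      left
      positivity
    · apply (prim_cont p hp1 hf).comp (by fun_prop)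
      intro u hu
      have := hpos u hu
      refine ⟨by positivity, ?_⟩
      calc r * u ≤ 1 * 1 := by
            have := hu.2
            gcongr
        _ = 1 := one_mul 1
  exact hc.integrableOn_Icc.mono_set Set.Ioc_subset_Icc_self

/-- pointwise bound -/
theorem smo_pt (p : ENNReal) (hp1 : 1 < p) (hp : p < ⊤) {f : ℝ → ℂ} (hf : MemLp f p mu)
    {δ : ℝ} (hδ : 0 < δ) (hδ1 : δ ≤ 1) (b : ℕ → ℂ)
    (hb : ∀ k : ℕ, b k = wfun p δ (tfun p (k * δ) (hardyFun f))) {k : ℕ} {x : ℝ}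
    (hx : x ∈ blk δ k) :
    ‖hardyFun f x - jfun p δ b x‖ ≤ x ^ (-(1 / p.toReal)) * ((2 * δ) ^ (1 - 1 / p.toReal) *
      (eLpNorm f p (volume.restrict (blk δ k))).toReal) + 2 * δ * ‖hardyFun f x‖ := by
  have hP : 1 ≤ p.toReal := by
    rw [← ENNReal.toReal_one]
    exact ENNReal.toReal_mono hp.ne hp1.le
  have hx0 := blk_pos hx
  set s := 1 - 1 / p.toReal with hs
  have hinv : 0 < 1 / p.toReal := by positivity
  have hinv1 : 1 / p.toReal ≤ 1 := by
    rw [div_le_one (by linarith)]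
    exact hP
  have hs0 : 0 ≤ s := by linarith
  have hs1 : s ≤ 1 := by linarith
  set r := Real.exp (-(k * δ)) with hr
  have hr0 : 0 < r := Real.exp_pos _
  have hr1 : r ≤ 1 := by
    rw [hr, Real.exp_le_one_iff]
    have : 0 ≤ (k : ℝ) * δ := by positivity
    linarith
  set N := (eLpNorm f p (volume.restrict (blk δ k))).toReal with hN
  have hN0 : 0 ≤ N := ENNReal.toReal_nonneg
  have hh : hardyFun f x = ((x ^ (-(1 / p.toReal)) : ℝ) : ℂ) *
      (((x ^ (-s) : ℝ) : ℂ) * prim f x) := by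
    have : x⁻¹ = x ^ (-(1 / p.toReal)) * x ^ (-s) := by
      rw [← Real.rpow_add hx0, ← Real.rpow_neg_one]
      congr 1
      rw [hs]
      ring
    rw [← mul_assoc, ← Complex.ofReal_mul, ← this, Complex.ofReal_inv]
    rfl
  have hj : jfun p δ b x = ((x ^ (-(1 / p.toReal)) : ℝ) : ℂ) *
      ∫ u in Set.Ioc (Real.exp (-δ)) 1, (((δ * u)⁻¹ : ℝ) : ℂ) *
        ((((r * u) ^ (-s) : ℝ) : ℂ) * prim f (r * u)) := by
    rw [jfun, blk_floor hδ hx, hb k, w_formula p f hδ k, ← mul_assoc, ← Complex.ofReal_mul,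
      Real.mul_rpow hδ.le hx0.le]
    congr 2
    rw [mul_comm (δ ^ (-(1 / p.toReal))), mul_assoc, ← Real.rpow_add hδ]
    simp
  have hB : ∀ u ∈ Set.Ioc (Real.exp (-δ)) 1,
      ‖((x ^ (-s) : ℝ) : ℂ) * prim f x - (((r * u) ^ (-s) : ℝ) : ℂ) * prim f (r * u)‖ ≤
        (2 * δ) ^ s * N + 2 * δ * ‖((x ^ (-s) : ℝ) : ℂ) * prim f x‖ := by
    intro u hu
    have hru : r * u ∈ blk δ k := by
      constructor
      · have : Real.exp (-((k + 1) * δ)) = r * Real.exp (-δ) := by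
          rw [hr, ← Real.exp_add]
          congr 1
          ring
        rw [this]
        exact mul_lt_mul_of_pos_left hu.1 hr0
      · calc r * u ≤ r * 1 := by
              have := hu.2
              gcongr
          _ = r := mul_one r
    exact phi_diff hs0 hs1 hδ hδ1 hN0 hx hru _ _ (prim_sub p hp1.le hf hδ hx hru)
  have hav := avg_bound hδ (((x ^ (-s) : ℝ) : ℂ) * prim f x) _ _
    (smo_int p hp1.le hf (s := s) hδ hr0 hr1) hB
  have hnn : 0 ≤ x ^ (-(1 / p.toReal)) := by positivity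
  have hhn : ‖hardyFun f x‖ = x ^ (-(1 / p.toReal)) * ‖((x ^ (-s) : ℝ) : ℂ) * prim f x‖ := by
    rw [hh, norm_mul, Complex.norm_real, Real.norm_of_nonneg hnn]
  rw [hhn, hh, hj, ← mul_sub, norm_mul, Complex.norm_real, Real.norm_of_nonneg hnn]
  refine (mul_le_mul_of_nonneg_left hav hnn).trans (le_of_eq ?_)
  ring

/-- the norm of the error term -/
theorem smo_norm (p : ENNReal) (hp1 : 1 < p) (hp : p < ⊤) {f : ℝ → ℂ} (hf : MemLp f p mu)
    {δ : ℝ} (hδ : 0 < δ) :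
    eLpNorm (jfun p δ fun k => ((δ ^ (1 / p.toReal) * ((2 * δ) ^ (1 - 1 / p.toReal) *
      (eLpNorm f p (volume.restrict (blk δ k))).toReal) : ℝ) : ℂ)) p mu ≤
      ENNReal.ofReal (2 * δ) * eLpNorm f p mu := by
  have hP : 1 ≤ p.toReal := by
    rw [← ENNReal.toReal_one]
    exact ENNReal.toReal_mono hp.ne hp1.le
  have hP0 : 0 < p.toReal := by linarith
  have hp0 : p ≠ 0 := (lt_trans zero_lt_one hp1).ne'
  rw [jfun_norm p hp1.le hp hδ]
  have hfin : ∀ k, eLpNorm f p (volume.restrict (blk δ k)) ≠ ⊤ := by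
    intro k
    have hle2 : volume.restrict (blk δ k) ≤ mu := by
      rw [mu_eq]
      exact Measure.restrict_mono (blk_sub hδ k) le_rfl
    exact ((eLpNorm_mono_measure f hle2).trans_lt hf.2).ne
  have h1 : ∀ k : ℕ, ‖((δ ^ (1 / p.toReal) * ((2 * δ) ^ (1 - 1 / p.toReal) *
      (eLpNorm f p (volume.restrict (blk δ k))).toReal) : ℝ) : ℂ)‖ₑ ^ p.toReal ≤
      ENNReal.ofReal (2 * δ) ^ p.toReal * ∫⁻ x in blk δ k, ‖f x‖ₑ ^ p.toReal := by
    intro k
    have h2 : ‖((δ ^ (1 / p.toReal) * ((2 * δ) ^ (1 - 1 / p.toReal) *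
      (eLpNorm f p (volume.restrict (blk δ k))).toReal) : ℝ) : ℂ)‖ₑ ≤
      ENNReal.ofReal (2 * δ) * eLpNorm f p (volume.restrict (blk δ k)) := by
      rw [← ofReal_norm, Complex.norm_real, Real.norm_of_nonneg (by positivity)]
      have h3 : δ ^ (1 / p.toReal) * ((2 * δ) ^ (1 - 1 / p.toReal) *
          (eLpNorm f p (volume.restrict (blk δ k))).toReal) ≤
          2 * δ * (eLpNorm f p (volume.restrict (blk δ k))).toReal := by
        rw [← mul_assoc]
        refine mul_le_mul_of_nonneg_right ?_ ENNReal.toReal_nonneg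
        calc δ ^ (1 / p.toReal) * (2 * δ) ^ (1 - 1 / p.toReal) ≤
            (2 * δ) ^ (1 / p.toReal) * (2 * δ) ^ (1 - 1 / p.toReal) := by
              gcongr
              linarith
          _ = 2 * δ := by
              rw [← Real.rpow_add (by linarith)]
              simp
      refine (ENNReal.ofReal_le_ofReal h3).trans (le_of_eq ?_)
      rw [ENNReal.ofReal_mul (by linarith), ENNReal.ofReal_toReal (hfin k)]
    refine (ENNReal.rpow_le_rpow h2 hP0.le).trans (le_of_eq ?_)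
    rw [ENNReal.mul_rpow_of_nonneg _ _ hP0.le, eLpNorm_eq_lintegral_rpow_enorm_toReal hp0 hp.ne,
      ← ENNReal.rpow_mul, one_div, inv_mul_cancel₀ hP0.ne', ENNReal.rpow_one]
  have h4 : (∑' k, ‖((δ ^ (1 / p.toReal) * ((2 * δ) ^ (1 - 1 / p.toReal) *
      (eLpNorm f p (volume.restrict (blk δ k))).toReal) : ℝ) : ℂ)‖ₑ ^ p.toReal) ≤
      ENNReal.ofReal (2 * δ) ^ p.toReal * ∫⁻ x, ‖f x‖ₑ ^ p.toReal ∂mu := by
    rw [blk_lint hδ, ← ENNReal.tsum_mul_left]
    exact ENNReal.tsum_le_tsum h1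
  refine (ENNReal.rpow_le_rpow h4 (by positivity)).trans (le_of_eq ?_)
  rw [ENNReal.mul_rpow_of_nonneg _ _ (by positivity), ← ENNReal.rpow_mul, mul_one_div,
    div_self hP0.ne', ENNReal.rpow_one, eLpNorm_eq_lintegral_rpow_enorm_toReal hp0 hp.ne]

/-- SMO -/
theorem SMO_proved : S_SMO := by
  intro p _ hp1 hp f₁ f hf
  refine ⟨2 * ‖f₁‖ + 2 * ‖f‖, fun δ hδ hδ1 b g hb hg => ?_⟩
  have hm1 : MemLp f₁ p mu := Lp.memLp f₁
  have hb' : ∀ k : ℕ, b k = wfun p δ (tfun p (k * δ) (hardyFun f₁)) := by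
    intro k
    rw [hb k, wfun, wfun]
    have hle : volume.restrict (Set.Ioc (Real.exp (-δ)) 1) ≤ mu := by
      rw [mu]
      refine Measure.restrict_mono (fun x hx => ?_) le_rfl
      exact ⟨(Real.exp_pos _).le.trans hx.1.le, hx.2⟩
    refine integral_congr_ae ?_
    filter_upwards [ae_mono hle (AEC_proved p (k * δ) _ _ (by positivity) hf)] with x hx
    rw [hx]
  set c : ℕ → ℂ := fun k => ((δ ^ (1 / p.toReal) * ((2 * δ) ^ (1 - 1 / p.toReal) *
      (eLpNorm f₁ p (volume.restrict (blk δ k))).toReal) : ℝ) : ℂ) with hc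
  have hpt : ∀ᵐ x ∂mu, ‖(f - g : LpI p) x‖ ≤ ‖jfun p δ c x‖ + 2 * δ * ‖f x‖ := by
    have hmem : ∀ᵐ x ∂mu, x ∈ Set.Ioc (0 : ℝ) 1 := by
      rw [mu_eq]
      exact ae_restrict_mem measurableSet_Ioc
    filter_upwards [hf, hg, Lp.coeFn_sub f g, hmem] with x hx1 hx2 hx3 hx4
    rw [hx3, Pi.sub_apply, hx1, hx2]
    rw [← blk_union hδ] at hx4
    obtain ⟨k, hk⟩ := Set.mem_iUnion.1 hx4
    have hx0 := blk_pos hk
    refine (smo_pt p hp1 hp hm1 hδ hδ1 b hb' hk).trans (le_of_eq ?_)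
    congr 1
    rw [jfun, blk_floor hδ hk, hc, norm_mul, Complex.norm_real, Complex.norm_real,
      Real.norm_of_nonneg (by positivity), Real.norm_of_nonneg (by positivity),
      Real.mul_rpow hδ.le hx0.le]
    have h1 : δ ^ (-(1 / p.toReal)) * δ ^ (1 / p.toReal) = 1 := by
      rw [← Real.rpow_add hδ]
      simp
    calc _ = (δ ^ (-(1 / p.toReal)) * δ ^ (1 / p.toReal)) * (x ^ (-(1 / p.toReal)) *
          ((2 * δ) ^ (1 - 1 / p.toReal) *
          (eLpNorm f₁ p (volume.restrict (blk δ k))).toReal)) := by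
            rw [h1, one_mul]
      _ = _ := by ring
  have h5 : eLpNorm (f - g : LpI p) p mu ≤ ENNReal.ofReal (2 * δ) * eLpNorm f₁ p mu +
      ENNReal.ofReal (2 * δ) * eLpNorm f p mu := by
    refine (eLpNorm_mono_ae_real hpt).trans ?_
    have e1 : (fun x => ‖jfun p δ c x‖ + 2 * δ * ‖f x‖) =
        (fun x => ‖jfun p δ c x‖) + (2 * δ) • (fun x => ‖f x‖) := by
      funext x
      simp
    rw [e1]
    refine (eLpNorm_add_le (jfun_meas p δ c).norm.aestronglyMeasurable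
      ((Lp.aestronglyMeasurable f).norm.const_smul _) hp1.le).trans ?_
    rw [eLpNorm_norm, eLpNorm_const_smul, eLpNorm_norm]
    refine add_le_add (smo_norm p hp1 hp hm1 hδ) (le_of_eq ?_)
    congr 1
    rw [← ofReal_norm, Real.norm_of_nonneg (by linarith)]
  have h6 := ENNReal.toReal_mono (ENNReal.add_ne_top.2
    ⟨ENNReal.mul_ne_top ENNReal.ofReal_ne_top (Lp.eLpNorm_ne_top f₁),
      ENNReal.mul_ne_top ENNReal.ofReal_ne_top (Lp.eLpNorm_ne_top f)⟩) h5
  rw [ENNReal.toReal_add (ENNReal.mul_ne_top ENNReal.ofReal_ne_top (Lp.eLpNorm_ne_top f₁))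
    (ENNReal.mul_ne_top ENNReal.ofReal_ne_top (Lp.eLpNorm_ne_top f)), ENNReal.toReal_mul,
    ENNReal.toReal_mul, ENNReal.toReal_ofReal (by linarith), ← Lp.norm_def, ← Lp.norm_def,
    ← Lp.norm_def] at h6
  refine h6.trans (le_of_eq ?_)
  ring

end HM
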